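import Pool.Agent.Lib.MP_a226eb_gt.GP4

/-!
# Bipartite generalised Petersen graphs underlie closed geodesic nets of the round 3-sphere
-/

namespace Pool.Agent.Results.MP_a226eb_gt.BipartitePetersen

open Pool.Agent.Lib.MP_a226eb_gt

/-- the generalised Petersen graphs are connected -/
lemma gp_connected (n : ℕ) (hn : 0 < n) (K : ZMod n) : Connected (gp n K) := by
  have : NeZero n := ⟨hn.ne'⟩
  have step : ∀ m : ZMod n, Relation.ReflTransGen
      (fun a b : Bool × ZMod n => ∃ i, (gp n K (a, i)).1 = b) (false, m) (false, m + 1) :=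
    fun m => Relation.ReflTransGen.single ⟨0, rfl⟩
  have outer : ∀ (t : ℕ) (m : ZMod n), Relation.ReflTransGen
      (fun a b : Bool × ZMod n => ∃ i, (gp n K (a, i)).1 = b) (false, m)
        (false, m + (t : ZMod n)) := by
    intro t
    induction t with
    | zero => intro m; simp; exact Relation.ReflTransGen.refl
    | succ t ih =>
      intro m
      have h1 := (ih m).trans (step (m + (t : ZMod n)))
      have h2 : m + (t : ZMod n) + 1 = m + ((t + 1 : ℕ) : ZMod n) := by push_cast; ring
      rw [h2] at h1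
      exact h1
  have toOuter : ∀ (b : Bool) (m : ZMod n), Relation.ReflTransGen
      (fun a b : Bool × ZMod n => ∃ i, (gp n K (a, i)).1 = b) (b, m) (false, m) := by
    intro b m
    cases b
    · exact Relation.ReflTransGen.refl
    · exact Relation.ReflTransGen.single ⟨2, rfl⟩
  have fromOuter : ∀ (b : Bool) (m : ZMod n), Relation.ReflTransGen
      (fun a b : Bool × ZMod n => ∃ i, (gp n K (a, i)).1 = b) (false, m) (b, m) := by
    intro b m
    cases b
    · exact Relation.ReflTransGen.refl
    · exact Relation.ReflTransGen.single ⟨2, rfl⟩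
  rintro ⟨b, m⟩ ⟨b', m'⟩
  have h := outer (m' - m).val m
  rw [ZMod.natCast_val, ZMod.cast_id', id_eq, add_sub_cancel] at h
  exact ((toOuter b m).trans h).trans (fromOuter b' m')

/-- For all even `n` and odd `k` with `2 k < n`, except `(n, k) = (8, 3)`, `(12, 5)`, `(20, 9)` and
`(30, 11)`, the round 3-sphere carries a closed geodesic net modelled on the generalised Petersen
graph `GP(n, k)`. -/
theorem result (n k : ℕ) (hn : Even n) (hk : Odd k) (hkn : 2 * k < n)
    (e1 : ¬ (n = 8 ∧ k = 3)) (e2 : ¬ (n = 12 ∧ k = 5)) (e3 : ¬ (n = 20 ∧ k = 9))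
    (e4 : ¬ (n = 30 ∧ k = 11)) :
    Occurs (gp n (k : ZMod n)) :=
  ⟨gp_pairing n _, gp_connected n (by omega) _, gp_bipartite n k hn hk hkn e1 e2 e3 e4⟩

end Pool.Agent.Results.MP_a226eb_gt.BipartitePetersen
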