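import Pool.Agent.Lib.MP_a226eb_gt.Haar

/-!
# Every connected cubic cyclic Haar graph underlies a closed geodesic net of the round 3-sphere
-/

namespace Pool.Agent.Results.MP_a226eb_gt.HaarGraphs

open Pool.Agent.Lib.MP_a226eb_gt

/-- For every `n ≥ 1` and any three distinct residues `s 0, s 1, s 2` modulo `n`, if the cubic Haar
graph `H(n; s 0, s 1, s 2)` (vertices `u_m`, `v_m` for `m` modulo `n`, and `u_m` joined to
`v_(m + s t)`) is connected then the round 3-sphere carries a closed geodesic net modelled on it. -/
theorem result (n : ℕ) (hn : 0 < n) (s : Fin 3 → ZMod n) (hs : Function.Injective s)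
    (hc : Connected (haar n s)) : Occurs (haar n s) :=
  ⟨haar_pairing n s, hc, haar_has_net n hn s hs⟩

end Pool.Agent.Results.MP_a226eb_gt.HaarGraphs
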