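import Pool.Agent.Lib.MP_a226eb_gt.Necklace2

/-!
# Which necklaces of digons underlie closed geodesic nets of the round 3-sphere
-/

namespace Pool.Agent.Results.MP_a226eb_gt.Necklaces

open Pool.Agent.Lib.MP_a226eb_gt

/-- necklaces are connected -/
lemma necklace_connected (r : ℕ) (hr : 0 < r) : Connected (necklace r) := by
  have : NeZero r := ⟨hr.ne'⟩
  have s1 : ∀ (b : Bool) (m : ZMod r), Relation.ReflTransGen
      (fun a b : Bool × ZMod r => ∃ i, (necklace r (a, i)).1 = b) (b, m) (!b, m) :=
    fun b m => Relation.ReflTransGen.single ⟨0, by cases b <;> rfl⟩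
  have s2 : ∀ m : ZMod r, Relation.ReflTransGen
      (fun a b : Bool × ZMod r => ∃ i, (necklace r (a, i)).1 = b) (false, m) (false, m + 1) := by
    intro m
    exact (s1 false m).trans (Relation.ReflTransGen.single ⟨2, rfl⟩)
  have outer : ∀ (t : ℕ) (m : ZMod r), Relation.ReflTransGen
      (fun a b : Bool × ZMod r => ∃ i, (necklace r (a, i)).1 = b) (false, m)
        (false, m + (t : ZMod r)) := by
    intro t
    induction t with
    | zero => intro m; simp; exact Relation.ReflTransGen.refl
    | succ t ih =>
      intro m
      have h1 := (ih m).trans (s2 (m + (t : ZMod r)))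
      have h2 : m + (t : ZMod r) + 1 = m + ((t + 1 : ℕ) : ZMod r) := by push_cast; ring
      rw [h2] at h1
      exact h1
  have toF : ∀ (b : Bool) (m : ZMod r), Relation.ReflTransGen
      (fun a b : Bool × ZMod r => ∃ i, (necklace r (a, i)).1 = b) (b, m) (false, m) := by
    intro b m
    cases b
    · exact Relation.ReflTransGen.refl
    · exact s1 true m
  have fromF : ∀ (b : Bool) (m : ZMod r), Relation.ReflTransGen
      (fun a b : Bool × ZMod r => ∃ i, (necklace r (a, i)).1 = b) (false, m) (b, m) := by
    intro b m
    cases b
    · exact Relation.ReflTransGen.refl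
    · exact s1 false m
  rintro ⟨b, m⟩ ⟨b', m'⟩
  have h := outer (m' - m).val m
  rw [ZMod.natCast_val, ZMod.cast_id', id_eq, add_sub_cancel] at h
  exact ((toF b m).trans h).trans (fromF b' m')

/-- The necklace of `r ≥ 1` digons (the cubic multigraph obtained from the cycle of length `2 r` by
doubling every second edge; the theta graph for `r = 1`) underlies a closed geodesic net of the
round 3-sphere if and only if `r` is odd. -/
theorem result (r : ℕ) (hr : 0 < r) : Occurs (necklace r) ↔ Odd r := by
  constructor
  · rintro ⟨_, _, ⟨N⟩⟩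
    exact necklace_odd N hr
  · intro hodd
    have : NeZero r := ⟨hr.ne'⟩
    exact ⟨necklace_pairing r, necklace_connected r hr, necklace_net r hodd⟩

end Pool.Agent.Results.MP_a226eb_gt.Necklaces
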