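import Pool.Agent.Lib.MP_a226eb_gt.Criterion

/-!
# A necessary condition: graphs of closed geodesic nets of the round 3-sphere have S²-flows
-/

namespace Pool.Agent.Results.MP_a226eb_gt.SphereFlow

open Pool.Agent.Lib.MP_a226eb_gt Quaternion

/-- An `S²`-flow of a cubic multigraph: a unit vector of `ℝ³` for every dart, opposite vectors for
the two darts of an edge, and sum zero at every vertex. -/
def IsSphereFlow {V : Type} (mate : V × Fin 3 → V × Fin 3)
    (f : V × Fin 3 → EuclideanSpace ℝ (Fin 3)) : Prop :=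
  (∀ d, ‖f d‖ = 1) ∧ (∀ d, f (mate d) = -f d) ∧ ∀ v, f (v, 0) + f (v, 1) + f (v, 2) = 0

/-- A bridge: an edge, with dart `d`, which is the only edge leaving some set `S` of vertices. -/
def IsBridge {V : Type} (mate : V × Fin 3 → V × Fin 3) (d : V × Fin 3) : Prop :=
  ∃ S : Set V, d.1 ∈ S ∧ (mate d).1 ∉ S ∧ ∀ d' : V × Fin 3, d'.1 ∈ S → (mate d').1 ∉ S → d' = d

/-- the imaginary part as a vector -/
noncomputable def toVec (a : HH) : EuclideanSpace ℝ (Fin 3) := !₂[a.imI, a.imJ, a.imK]

lemma toVec_add (a b : HH) : toVec (a + b) = toVec a + toVec b := by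
  ext i; fin_cases i <;> simp [toVec]

lemma toVec_neg (a : HH) : toVec (-a) = -toVec a := by
  ext i; fin_cases i <;> simp [toVec]

lemma toVec_zero : toVec 0 = 0 := by
  ext i; fin_cases i <;> simp [toVec]

lemma toVec_norm {a : HH} (h : UI a) : ‖toVec a‖ = 1 := by
  rw [EuclideanSpace.norm_eq]
  have : ∑ i : Fin 3, ‖(toVec a) i‖ ^ 2 = 1 := by
    rw [Fin.sum_univ_three]
    simp [toVec]
    exact h.2
  rw [this, Real.sqrt_one]

/-- a graph of a net has an `S²`-flow -/
lemma exists_flow {V : Type} {mate : V × Fin 3 → V × Fin 3} (N : Net V mate) :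
    ∃ f, IsSphereFlow mate f := by
  let φ := Quaternion.linearIsometryEquivTuple.symm
  let x : V → HH := fun v => φ (N.pos v)
  let u : V × Fin 3 → HH := fun d => φ (N.dir d)
  let A : V × Fin 3 → HH := fun d => u d * star (x d.1)
  have hx : ∀ v, ip (x v) (x v) = 1 := by
    intro v; rw [ip_self_eq_one_iff]; simp only [x, φ.norm_map, N.pos_norm]
  have hu : ∀ d, ip (u d) (u d) = 1 := by
    intro d; rw [ip_self_eq_one_iff]; simp only [u, φ.norm_map, N.dir_norm]
  have hux : ∀ d, u d = A d * x d.1 := by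
    intro d; simp only [A]; rw [mul_assoc, star_mul_of_ip (hx _), mul_one]
  have hA : ∀ d, UI (A d) := by
    intro d
    have h0 : (A d).re = 0 := by
      simp only [A]
      rw [← Quaternion.inner_def, real_inner_comm]
      simp only [x, u, φ.inner_map_map, N.orth]
    have h1 : ip (A d) (A d) = 1 := by
      rw [ip_self_eq_one_iff]
      simp only [A]
      rw [norm_mul, norm_star, (ip_self_eq_one_iff _).1 (hx _), (ip_self_eq_one_iff _).1 (hu _),
        one_mul]
    refine ⟨h0, ?_⟩
    simp only [ip, h0] at h1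
    linarith
  have harc : ∀ (a b : E4) (t : ℝ), φ (arc a b t) = Real.cos t • φ a + Real.sin t • φ b := by
    intro a b t; simp only [arc, map_add, map_smul]
  have hmate : ∀ d, A (mate d) = -A d := by
    intro d
    have r1 := congrArg φ (N.rev d (N.len d))
    have r2 := congrArg φ (N.rev d (N.len d - Real.pi / 2))
    rw [harc, harc] at r1 r2
    rw [sub_self, Real.cos_zero, Real.sin_zero, one_smul, zero_smul, add_zero] at r1
    rw [sub_sub_cancel, Real.cos_pi_div_two, Real.sin_pi_div_two, one_smul, zero_smul, zero_add,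
      Real.cos_sub, Real.sin_sub, Real.cos_pi_div_two, Real.sin_pi_div_two] at r2
    change Real.cos (N.len d) • x d.1 + Real.sin (N.len d) • u d = x (mate d).1 at r1
    change (Real.cos (N.len d) * 0 + Real.sin (N.len d) * 1) • x d.1 +
      (Real.sin (N.len d) * 0 - Real.cos (N.len d) * 1) • u d = u (mate d) at r2
    have haa := (hA d).mul_self
    have h3 : u (mate d) = -(A d) * x (mate d).1 := by
      rw [← r1, ← r2, hux d, mul_add, mul_smul_comm, mul_smul_comm, neg_mul, neg_mul, ← mul_assoc,
        haa]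
      simp
      abel
    show u (mate d) * star (x (mate d).1) = -A d
    rw [h3, mul_assoc, mul_star_of_ip (hx _), mul_one]
  refine ⟨fun d => toVec (A d), fun d => toVec_norm (hA d), fun d => ?_, fun v => ?_⟩
  · show toVec (A (mate d)) = -toVec (A d)
    rw [hmate, toVec_neg]
  · show toVec (A (v, 0)) + toVec (A (v, 1)) + toVec (A (v, 2)) = 0
    rw [← toVec_add, ← toVec_add]
    have : A (v, 0) + A (v, 1) + A (v, 2) = 0 := by
      simp only [A]
      rw [← add_mul, ← add_mul]
      have h := congrArg φ (N.balanced v)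
      rw [map_add, map_add, map_zero] at h
      change u (v, 0) + u (v, 1) + u (v, 2) = 0 at h
      rw [h, zero_mul]
    rw [this, toVec_zero]

/-- a finite graph with an `S²`-flow has no bridge -/
lemma no_bridge {V : Type} [Finite V] {mate : V × Fin 3 → V × Fin 3} (hp : IsPairing mate)
    {f : V × Fin 3 → EuclideanSpace ℝ (Fin 3)} (hf : IsSphereFlow mate f) (d : V × Fin 3) :
    ¬ IsBridge mate d := by
  classical
  rintro ⟨S, h1, h2, h3⟩
  have := Fintype.ofFinite V
  obtain ⟨hn, hm, hs⟩ := hf
  have hsum : ∑ d : V × Fin 3, (if d.1 ∈ S then f d else 0) = 0 := by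
    rw [Fintype.sum_prod_type]
    refine Finset.sum_eq_zero fun v _ => ?_
    rw [Fin.sum_univ_three]
    by_cases hv : v ∈ S
    · simp only [hv, if_true]; exact hs v
    · simp [hv]
  have hsplit : ∀ e : V × Fin 3, (if e.1 ∈ S then f e else 0)
      = (if e.1 ∈ S ∧ (mate e).1 ∈ S then f e else 0) + (if e = d then f e else 0) := by
    intro e
    by_cases ha : e.1 ∈ S
    · by_cases hb : (mate e).1 ∈ S
      · have : e ≠ d := by rintro rfl; exact h2 hb
        simp [ha, hb, this]
      · have : e = d := h3 e ha hb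
        subst this
        simp [ha, hb]
    · have : e ≠ d := by rintro rfl; exact ha h1
      simp [ha, this]
  have hin : ∑ e : V × Fin 3, (if e.1 ∈ S ∧ (mate e).1 ∈ S then f e else 0) = 0 := by
    let eq : V × Fin 3 ≃ V × Fin 3 := ⟨mate, mate, fun d => (hp d).1, fun d => (hp d).1⟩
    have h4 : ∑ e : V × Fin 3, (if e.1 ∈ S ∧ (mate e).1 ∈ S then f e else 0)
        = -∑ e : V × Fin 3, (if e.1 ∈ S ∧ (mate e).1 ∈ S then f e else 0) := by
      conv_lhs => rw [← Equiv.sum_comp eq]
      rw [← Finset.sum_neg_distrib]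
      refine Finset.sum_congr rfl fun e _ => ?_
      show (if (mate e).1 ∈ S ∧ (mate (mate e)).1 ∈ S then f (mate e) else 0) = _
      rw [(hp e).1, hm]
      by_cases ha : e.1 ∈ S <;> by_cases hb : (mate e).1 ∈ S <;> simp [ha, hb]
    have h5 : (2 : ℝ) • ∑ e : V × Fin 3, (if e.1 ∈ S ∧ (mate e).1 ∈ S then f e else 0) = 0 := by
      rw [two_smul]
      nth_rewrite 2 [h4]
      exact add_neg_cancel _
    exact (smul_eq_zero.1 h5).resolve_left (by norm_num)
  rw [Finset.sum_congr rfl (fun e _ => hsplit e), Finset.sum_add_distrib, hin, zero_add,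
    Finset.sum_ite_eq' Finset.univ d, if_pos (Finset.mem_univ d)] at hsum
  have := hn d
  rw [hsum, norm_zero] at this
  exact zero_ne_one this

/-- If the round 3-sphere carries a closed geodesic net modelled on a finite cubic multigraph then
the multigraph has an `S²`-flow; in particular it has no bridge. -/
theorem result (V : Type) [Finite V] (mate : V × Fin 3 → V × Fin 3) (h : Occurs mate) :
    (∃ f, IsSphereFlow mate f) ∧ ∀ d, ¬ IsBridge mate d := by
  obtain ⟨hp, _, ⟨N⟩⟩ := h
  obtain ⟨f, hf⟩ := exists_flow N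
  exact ⟨⟨f, hf⟩, fun d => no_bridge hp hf d⟩

end Pool.Agent.Results.MP_a226eb_gt.SphereFlow
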